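import Pool.Agent.Lib.MP_b9166b_al.Kss.St
import Pool.Agent.Lib.MP_b9166b_al.Ks2.Main

/-!
# MP_b9166b_al: the theorem on simple groups with covers relative to an element
-/

set_option autoImplicit false

namespace Pool.Agent.Lib.MP_b9166b_al.Kss

theorem finLin_iff (G : Type) [Group G] :
    FinLin G ↔ Pool.Agent.Lib.MP_b9166b_al.FinLin G := Iff.rfl

theorem Cover.cov {G : Type} [Group G] {x z : G} {H : Subgroup G} (h : Cover x z H) :
    Ks2.Cov (fun L _ => Ks2.IsSL L ∨ Ks2.IsAlt L) x z H := h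

theorem main (G : Type) [Group G] (hs : IsSimpleGroup G) (x z : G)
    (h : ∀ S : Finset G, ∃ H : Subgroup G, (∀ s ∈ S, s ∈ H) ∧ Cover x z H)
    (hx : FinLin (Subgroup.centralizer ({x} : Set G))) : FinLin G :=
  (finLin_iff G).2 (Ks2.kss (z := z) hs (fun S => by
    obtain ⟨H, h1, h2⟩ := h S
    exact ⟨H, h1, h2.cov⟩) ((finLin_iff _).1 hx))

end Pool.Agent.Lib.MP_b9166b_al.Kss
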