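import Mathlib

/-!
# MP_b9166b_al: the definitions of the statement of CoprimeKernel
-/

set_option autoImplicit false

namespace Pool.Agent.Lib.MP_b9166b_al.Kss

open scoped commutatorElement

/-- The image of `1 - f` has finite dimension. -/
def FinMap {K V : Type} [Field K] [AddCommGroup V] [Module K V] (f : V →ₗ[K] V) : Prop :=
  FiniteDimensional K (LinearMap.range (1 - f))

/-- `G` acts faithfully on the `K`-space `V`, in such a way that `V (1 - g)` has finite dimension for
all `g`. -/
def FinRep (K V G : Type) [Field K] [AddCommGroup V] [Module K V] [Group G] : Prop :=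
  ∃ ρ : G →* (V →ₗ[K] V)ˣ, Function.Injective ρ ∧ ∀ h : G, FinMap (ρ h).val

/-- `G` is finitary linear: it acts faithfully on a vector space of infinite dimension in such a way
that `V (1 - g)` has finite dimension for all `g`. -/
def FinLin (G : Type) [Group G] : Prop :=
  ∃ (K : Type) (_ : Field K) (V : Type) (_ : AddCommGroup V) (_ : Module K V),
    ¬ FiniteDimensional K V ∧ FinRep K V G

/-- `L` is isomorphic to `SL_n(F)` for some `n` and some finite field `F`. -/
def IsSL (L : Type) [Group L] : Prop :=
  ∃ (F : Type) (_ : Field F) (n : ℕ),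
    Finite F ∧ Nonempty (Matrix.SpecialLinearGroup (Fin n) F ≃* L)

/-- `L` is isomorphic to `Alt(n)` for some `n`. -/
def IsAlt (L : Type) [Group L] : Prop :=
  ∃ n : ℕ, Nonempty (alternatingGroup (Fin n) ≃* L)

/-- `Q = M C_Q(M)`, and `M` is the quotient of some `SL_n(F)`, `F` a finite field, or of some `Alt(n)` by a
central subgroup. -/
def Factor {Q : Type} [Group Q] (M : Subgroup Q) : Prop :=
  M ⊔ Subgroup.centralizer (M : Set Q) = ⊤ ∧
    ∃ (L : Type) (_ : Group L) (σ : L →* Q),
      (IsSL L ∨ IsAlt L) ∧ σ.ker ≤ Subgroup.center L ∧ σ.range = M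

/-- Either the order of `T` is prime to the order of `x`, or every element of every perfect subgroup `D` of
`M ≤ H / T` which centralizes `x T` is the image of an element of `H` commuting with `x`. -/
def Lifts {H : Type} [Group H] (T : Subgroup H) [T.Normal] (M : Subgroup (H ⧸ T)) (x : H) : Prop :=
  (Nat.card T).Coprime (orderOf x) ∨
    ∀ D ≤ M, ⁅D, D⁆ = D → (∀ d ∈ D, Commute d (x : H ⧸ T)) →
      ∀ d ∈ D, ∃ h : H, Commute h x ∧ (h : H ⧸ T) = d

/-- `H` is a finite subgroup containing `x` and `z`; it has a normal subgroup `T`, and `H / T` has a subgroup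
`M` with the properties `Factor` and `Lifts` which does not centralize `z T`. -/
def Cover {G : Type} [Group G] (x z : G) (H : Subgroup G) : Prop :=
  Finite H ∧ ∃ (hx : x ∈ H) (hz : z ∈ H) (T : Subgroup H) (_ : T.Normal) (M : Subgroup (H ⧸ T)),
    Factor M ∧ Lifts T M ⟨x, hx⟩ ∧
      ((⟨z, hz⟩ : H) : H ⧸ T) ∉ Subgroup.centralizer (M : Set (H ⧸ T))

end Pool.Agent.Lib.MP_b9166b_al.Kss
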